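import Mathlib
import Pool.Agent.H52.FT.Targets

/-!
# CLS: classes of letters
-/

namespace Pool.Agent.H46.FT.CLS

open Pool.Agent.H52.FT

noncomputable section

/-- number of steps -/
def TT (n h : ℝ) : ℕ := ⌈√(6 * n * h) / h⌉₊

/-- class of a cost -/
def clf (n h pb p : ℝ) : ℕ :=
  if |p - pb| ≤ √(6 * n * h) then (⌊(p - pb) / h⌋ + TT n h).toNat
  else if 0 < p - pb then 2 * TT n h + 1 + ⌊6 * n / (p - pb)⌋₊
  else 3 * TT n h + 2 + ⌊6 * n / (pb - p)⌋₊

/-- upper bound of a class -/
def Pf (n h pb : ℝ) (j : ℕ) : ℝ :=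
  if j ≤ 2 * TT n h then pb + ((j : ℝ) - TT n h + 1) * h
  else if j ≤ 3 * TT n h + 1 then pb + 6 * n / ((j - (2 * TT n h + 1) : ℕ) : ℝ)
  else pb - 6 * n / (((j - (3 * TT n h + 2) : ℕ) : ℝ) + 1)

theorem core {n h pb p : ℝ} (hn : 0 < n) (hh : 0 < h) (h16 : 16 * h ≤ n) (h1 : 7 * n / 8 ≤ pb)
    (h2 : pb ≤ 9 * n / 8) (h3 : n / 4 ≤ p) (h4 : p ≤ 2 * n) :
    clf n h pb p < 4 * TT n h + 4 ∧ p ≤ Pf n h pb (clf n h pb p) ∧
      Pf n h pb (clf n h pb p) ≤ 9 * n / 4 ∧
      Pf n h pb (clf n h pb p) - p ≤
        h + (Pf n h pb (clf n h pb p) - pb) ^ 2 / Pf n h pb (clf n h pb p) ∧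
      (p = n / 4 → n / 2 ≤ (Pf n h pb (clf n h pb p) - pb) ^ 2 / Pf n h pb (clf n h pb p) ∧
        Pf n h pb (clf n h pb p) ≤ 3 * n / 8) := by
  have hKh : 0 < 6 * n * h := by positivity
  set D0 := √(6 * n * h) with hD0
  have hD0p : 0 < D0 := Real.sqrt_pos.2 hKh
  have hD0sq : D0 ^ 2 = 6 * n * h := Real.sq_sqrt hKh.le
  have hT : D0 / h ≤ TT n h := Nat.le_ceil _
  have hT' : D0 ≤ TT n h * h := by
    rw [div_le_iff₀ hh] at hT
    exact hT
  by_cases hA : |p - pb| ≤ D0
  · -- case A
    have hcl : clf n h pb p = (⌊(p - pb) / h⌋ + TT n h).toNat := by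
      unfold clf
      rw [if_pos hA]
    have hab := abs_le.1 hA
    have hm1 : -(TT n h : ℤ) ≤ ⌊(p - pb) / h⌋ := by
      rw [Int.le_floor]
      push_cast
      rw [le_div_iff₀ hh]
      linarith [hab.1]
    have hm2 : ⌊(p - pb) / h⌋ ≤ TT n h := by
      have : ((⌊(p - pb) / h⌋ : ℤ) : ℝ) ≤ (p - pb) / h := Int.floor_le _
      have h5 : (p - pb) / h ≤ TT n h := by
        rw [div_le_iff₀ hh]
        linarith [hab.2]
      exact_mod_cast this.trans h5
    have hle : clf n h pb p ≤ 2 * TT n h := by
      rw [hcl]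
      omega
    have hcast : ((clf n h pb p : ℕ) : ℝ) = (⌊(p - pb) / h⌋ : ℝ) + TT n h := by
      rw [hcl]
      have h5 : (((⌊(p - pb) / h⌋ + (TT n h : ℤ)).toNat : ℕ) : ℤ) = ⌊(p - pb) / h⌋ + TT n h :=
        Int.toNat_of_nonneg (by omega)
      exact_mod_cast congrArg (fun x : ℤ => (x : ℝ)) h5
    have hP : Pf n h pb (clf n h pb p) = pb + ((⌊(p - pb) / h⌋ : ℝ) + 1) * h := by
      unfold Pf
      rw [if_pos hle, hcast]
      ring
    have hf1 : (⌊(p - pb) / h⌋ : ℝ) * h ≤ p - pb := by
      have := Int.floor_le ((p - pb) / h)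
      rwa [le_div_iff₀ hh] at this
    have hf2 : p - pb < ((⌊(p - pb) / h⌋ : ℝ) + 1) * h := by
      have := Int.lt_floor_add_one ((p - pb) / h)
      rwa [div_lt_iff₀ hh] at this
    have hPp : p ≤ Pf n h pb (clf n h pb p) := by rw [hP]; linarith
    have hPh : Pf n h pb (clf n h pb p) ≤ p + h := by rw [hP]; linarith
    have hP0 : 0 < Pf n h pb (clf n h pb p) := by linarith
    refine ⟨by omega, hPp, by linarith, ?_, ?_⟩
    · have : 0 ≤ (Pf n h pb (clf n h pb p) - pb) ^ 2 / Pf n h pb (clf n h pb p) := by positivity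
      linarith
    · intro hp
      exfalso
      have h5 : 5 * n / 8 ≤ D0 := by
        rw [hp] at hab
        linarith [hab.1]
      have h6 : (5 * n / 8) ^ 2 ≤ D0 ^ 2 := pow_le_pow_left₀ (by positivity) h5 2
      rw [hD0sq] at h6
      nlinarith
  · by_cases hB : 0 < p - pb
    · -- case B
      have hcl : clf n h pb p = 2 * TT n h + 1 + ⌊6 * n / (p - pb)⌋₊ := by
        unfold clf
        rw [if_neg hA, if_pos hB]
      have hD : D0 < p - pb := by
        rw [not_le, abs_of_pos hB] at hA
        exact hA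
      set D := p - pb with hDdef
      have hD9 : D ≤ 9 * n / 8 := by linarith
      set i := ⌊6 * n / D⌋₊ with hi
      have hi5 : 5 ≤ i := by
        apply Nat.le_floor
        rw [le_div_iff₀ hB]
        push_cast
        nlinarith
      have hi5' : (5 : ℝ) ≤ i := by exact_mod_cast hi5
      have hi0 : (0 : ℝ) < i := by linarith
      have hif : (i : ℝ) * D ≤ 6 * n := by
        have := Nat.floor_le (show 0 ≤ 6 * n / D by positivity)
        rwa [le_div_iff₀ hB] at this
      have hif2 : 6 * n < ((i : ℝ) + 1) * D := by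
        have := Nat.lt_floor_add_one (6 * n / D)
        rwa [div_lt_iff₀ hB] at this
      have hiT : i ≤ TT n h := by
        have h5 : (i : ℝ) ≤ TT n h := by
          refine le_trans ?_ hT
          rw [le_div_iff₀ hh]
          by_contra hcon
          push Not at hcon
          have h6 : D0 * D0 < (i : ℝ) * h * D0 := mul_lt_mul_of_pos_right hcon hD0p
          have h7 : (i : ℝ) * h * D0 ≤ (i : ℝ) * h * D :=
            mul_le_mul_of_nonneg_left hD.le (by positivity)
          have h8 : (i : ℝ) * h * D = h * ((i : ℝ) * D) := by ring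
          have h9 : h * ((i : ℝ) * D) ≤ h * (6 * n) := mul_le_mul_of_nonneg_left hif hh.le
          nlinarith
        exact_mod_cast h5
      have hP : Pf n h pb (clf n h pb p) = pb + 6 * n / i := by
        unfold Pf
        rw [hcl, if_neg (by omega), if_pos (by omega)]
        congr 3
        omega
      set P := Pf n h pb (clf n h pb p) with hPdef
      have hq : (6 * n / i) * i = 6 * n := by field_simp
      have hPge : D ≤ 6 * n / i := by
        rw [le_div_iff₀ hi0]
        linarith
      have hq0 : 0 < 6 * n / i := by positivity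
      have hPp : p ≤ P := by rw [hP]; linarith
      have hPup : 6 * n / i ≤ 6 / 5 * D := by
        rw [div_le_iff₀ hi0]
        nlinarith
      have hP94 : P ≤ 9 * n / 4 := by
        rw [hP]
        linarith
      have hP0 : 0 < P := by linarith
      refine ⟨by omega, hPp, hP94, ?_, ?_⟩
      · have h5 : (P - pb) ^ 2 / (6 * n) ≤ (P - pb) ^ 2 / P :=
          div_le_div_of_nonneg_left (sq_nonneg _) hP0 (by linarith)
        have h6 : P - p ≤ (P - pb) ^ 2 / (6 * n) := by
          rw [le_div_iff₀ (by positivity), hP]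
          have h7 : pb + 6 * n / i - pb = 6 * n / i := by ring
          rw [h7]
          set Q := 6 * n / (i : ℝ) with hQ
          have h8 : Q * i = 6 * n := hq
          -- (pb + Q - p) * (6 n) <= Q^2, where Q * i = 6 n, D (i+1) > 6 n
          have h9 : (pb + Q - p) = Q - D := by rw [hDdef]; ring
          rw [h9, ← h8]
          have h10 : Q * i < (i + 1) * D := by rw [h8]; exact hif2
          -- (Q - D) * (Q * i) <= Q^2 iff (Q - D) i <= Q
          nlinarith
        linarith
      · intro hp
        exfalso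
        linarith
    · -- case C
      have hcl : clf n h pb p = 3 * TT n h + 2 + ⌊6 * n / (pb - p)⌋₊ := by
        unfold clf
        rw [if_neg hA, if_neg hB]
      have hD : D0 < pb - p := by
        rw [not_le, abs_of_nonpos (not_lt.1 hB)] at hA
        linarith
      set D := pb - p with hDdef
      have hDp : 0 < D := by linarith
      have hD7 : D ≤ 7 * n / 8 := by linarith
      set i := ⌊6 * n / D⌋₊ with hi
      have hi6 : 6 ≤ i := by
        apply Nat.le_floor
        rw [le_div_iff₀ hDp]
        push_cast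
        nlinarith
      have hi6' : (6 : ℝ) ≤ i := by exact_mod_cast hi6
      have hi0 : (0 : ℝ) < (i : ℝ) + 1 := by linarith
      have hif : (i : ℝ) * D ≤ 6 * n := by
        have := Nat.floor_le (show 0 ≤ 6 * n / D by positivity)
        rwa [le_div_iff₀ hDp] at this
      have hif2 : 6 * n < ((i : ℝ) + 1) * D := by
        have := Nat.lt_floor_add_one (6 * n / D)
        rwa [div_lt_iff₀ hDp] at this
      have hiT : i ≤ TT n h := by
        have h5 : (i : ℝ) ≤ TT n h := by
          refine le_trans ?_ hT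
          rw [le_div_iff₀ hh]
          by_contra hcon
          push Not at hcon
          have h6 : D0 * D0 < (i : ℝ) * h * D0 := mul_lt_mul_of_pos_right hcon hD0p
          have h7 : (i : ℝ) * h * D0 ≤ (i : ℝ) * h * D :=
            mul_le_mul_of_nonneg_left hD.le (by positivity)
          have h8 : (i : ℝ) * h * D = h * ((i : ℝ) * D) := by ring
          have h9 : h * ((i : ℝ) * D) ≤ h * (6 * n) := mul_le_mul_of_nonneg_left hif hh.le
          nlinarith
        exact_mod_cast h5
      have hP : Pf n h pb (clf n h pb p) = pb - 6 * n / ((i : ℝ) + 1) := by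
        unfold Pf
        rw [hcl, if_neg (by omega), if_neg (by omega)]
        congr 3
        rw [show 3 * TT n h + 2 + ⌊6 * n / (pb - p)⌋₊ - (3 * TT n h + 2) =
          ⌊6 * n / (pb - p)⌋₊ by omega]
      set P := Pf n h pb (clf n h pb p) with hPdef
      set Q := 6 * n / ((i : ℝ) + 1) with hQ
      have hq : Q * ((i : ℝ) + 1) = 6 * n := by rw [hQ]; field_simp
      have hQ0 : 0 < Q := by positivity
      have hQD : Q < D := by
        rw [hQ, div_lt_iff₀ hi0]
        linarith
      have hPp : p ≤ P := by rw [hP]; linarith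
      have hP0 : 0 < P := by linarith
      have hP98 : P ≤ 9 * n / 8 := by rw [hP]; linarith
      have hiD : (i : ℝ) * D ≤ Q * ((i : ℝ) + 1) := by rw [hq]; exact hif
      refine ⟨by omega, hPp, by linarith, ?_, ?_⟩
      · have h5 : P - p ≤ (P - pb) ^ 2 / P := by
          rw [le_div_iff₀ hP0]
          have h6 : P - pb = -Q := by rw [hP]; ring
          have h7 : P - p = D - Q := by rw [hP]; ring
          rw [h6, h7]
          -- (D - Q) P <= Q^2 : i (D - Q) <= Q, P <= i Q
          have h8 : (i : ℝ) * (D - Q) ≤ Q := by linarith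
          have h9 : P ≤ (i : ℝ) * Q := by
            have h10 : (i : ℝ) * Q = 6 * n - Q := by linarith
            rw [h10]
            linarith
          have h11 : 0 < D - Q := by linarith
          calc (D - Q) * P ≤ (D - Q) * ((i : ℝ) * Q) := mul_le_mul_of_nonneg_left h9 h11.le
            _ = ((i : ℝ) * (D - Q)) * Q := by ring
            _ ≤ Q * Q := mul_le_mul_of_nonneg_right h8 hQ0.le
            _ = (-Q) ^ 2 := by ring
        linarith
      · intro hp
        have hD5 : 5 * n / 8 ≤ D := by rw [hDdef, hp]; linarith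
        have h6 : P - pb = -Q := by rw [hP]; ring
        have hQge : 15 * n / 28 ≤ Q := by
          -- Q (i+1) >= i D, i >= 6
          have h7 : (i : ℝ) * (Q - D) + Q ≥ 0 := by linarith
          have h8 : 6 * (D - Q) ≤ Q := by nlinarith
          linarith
        have hP38 : P ≤ 3 * n / 8 := by
          have h8 : 6 * (D - Q) ≤ Q := by nlinarith
          have h9 : P = p + (D - Q) := by rw [hP]; ring
          rw [h9, hp]
          linarith
        refine ⟨?_, hP38⟩
        rw [le_div_iff₀ hP0, h6]
        nlinarith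

theorem cls : T_CLS := by
  intro α S raw n h pb hn hh h16 h1 h2 hsum hraw
  refine ⟨4 * TT n h + 4, fun z => clf n h pb (max (raw z) (n / 4)), Pf n h pb, ?_, ?_, ?_⟩
  · have h3 : √(6 * n * h) / h = √(6 * n / h) := by
      have h30 : 6 * n / h = 6 * n * h / h ^ 2 := by field_simp
      rw [h30, Real.sqrt_div (by positivity), Real.sqrt_sq hh.le]
    have h4 : (TT n h : ℝ) ≤ √(6 * n / h) + 1 := by
      rw [← h3]
      exact (Nat.ceil_lt_add_one (by positivity)).le
    push_cast
    linarith
  · intro z hz
    have h5 := hraw z hz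
    have h6 := core hn hh h16 h1 h2 (le_max_right (raw z) (n / 4))
      (max_le h5.2 (by linarith))
    exact ⟨h6.1, h6.2.1, h6.2.2.1⟩
  · have hpb : 0 < pb := by linarith
    have hterm : ∀ z ∈ S, 1 / pb + (pb - raw z - h) / pb ^ 2 ≤
        1 / Pf n h pb (clf n h pb (max (raw z) (n / 4))) := by
      intro z hz
      have h5 := hraw z hz
      have h6 := core hn hh h16 h1 h2 (le_max_right (raw z) (n / 4))
        (max_le h5.2 (by linarith))
      set P := Pf n h pb (clf n h pb (max (raw z) (n / 4))) with hP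
      have hP0 : 0 < P := by
        have := h6.2.1
        have h7 := le_max_right (raw z) (n / 4)
        linarith
      have hkey : P - raw z ≤ h + (P - pb) ^ 2 / P := by
        rcases le_total (n / 4) (raw z) with h7 | h7
        · have h8 := h6.2.2.2.1
          have h8b : max (raw z) (n / 4) = raw z := max_eq_left h7
          linarith
        · have h8 := h6.2.2.2.2 (max_eq_right h7)
          linarith [h8.1, h8.2, h5.1]
      have hid : 1 / P = 1 / pb - (P - pb) / pb ^ 2 + ((P - pb) ^ 2 / P) / pb ^ 2 := by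
        field_simp
        ring
      have hpb2 : 0 < pb ^ 2 := by positivity
      have h9 : (P - raw z - h) / pb ^ 2 ≤ ((P - pb) ^ 2 / P) / pb ^ 2 :=
        div_le_div_of_nonneg_right (by linarith) hpb2.le
      rw [hid]
      have h10 : (pb - raw z - h) / pb ^ 2 = - (P - pb) / pb ^ 2 + (P - raw z - h) / pb ^ 2 := by
        rw [← add_div]
        congr 1
        ring
      rw [h10, neg_div]
      linarith
    refine le_trans (le_of_eq ?_) (Finset.sum_le_sum hterm)
    rw [Finset.sum_add_distrib, Finset.sum_const, nsmul_eq_mul, ← Finset.sum_div,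
      Finset.sum_sub_distrib, Finset.sum_sub_distrib, hsum, Finset.sum_const, Finset.sum_const,
      nsmul_eq_mul, nsmul_eq_mul]
    ring

end

end Pool.Agent.H46.FT.CLS
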