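import Mathlib
import Pool.Agent.H52.FT.Targets

/-!
# STEP: the induction step of the lower bound
-/

namespace Pool.Agent.H46.FT.STEP

open Pool.Agent.H52.FT

lemma cost_mono {α : Type} {p p' : α → ℝ} (h : ∀ z, p z ≤ p' z) (L : List α) :
    cost p L ≤ cost p' L := by
  induction L with
  | nil => simp
  | cons a L ih =>
    rw [cost_cons, cost_cons]
    linarith [h a]

theorem stp (h1 : T_WL) (h2 : T_CLS) (h3 : T_PRE) (h4 : T_CNT) (h5 : T_LOW) (h6 : T_ARI) :
    T_STEP := by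
  intro α _ A e S C n lam J κ w hFB hA hIH hn hlam hJ hlam0 h16 h336 hκ h250 hw
  have hA' : (1 : ℝ) ≤ A := by exact_mod_cast hA
  have hn0 : 0 < n := by linarith
  have hn3 : 0 < n ^ ((1 : ℝ) / 3) := Real.rpow_pos_of_pos hn0 _
  have hC : 0 < C := by
    by_contra hcon
    push Not at hcon
    have : C * n ^ ((1 : ℝ) / 3) ≤ 0 := mul_nonpos_of_nonpos_of_nonneg hcon hn3.le
    linarith
  have hCn : C * n ^ ((4 : ℝ) / 3) = n * lam := by
    have h7 : n ^ ((4 : ℝ) / 3) = n * n ^ ((1 : ℝ) / 3) := by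
      rw [show (4 : ℝ) / 3 = 1 + 1 / 3 by norm_num, Real.rpow_add hn0, Real.rpow_one]
    rw [h7, hlam]
    ring
  by_contra hcon
  push Not at hcon
  rw [hCn] at hcon
  -- bounds for `κ`
  have hsq : 0 ≤ √(288 * n / lam) := Real.sqrt_nonneg _
  have hJ8 : 8 ≤ J := by rw [hJ]; linarith
  have hκ0 : (0 : ℝ) ≤ κ := Nat.cast_nonneg _
  have h2000 : 2000 * (κ : ℝ) ≤ n := by
    have h7 : (8 : ℝ) ≤ A * J := by
      calc (8 : ℝ) ≤ J := hJ8
        _ = 1 * J := by ring
        _ ≤ A * J := mul_le_mul_of_nonneg_right hA' (by linarith)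
    have h8 := mul_le_mul_of_nonneg_right h7 hκ0
    linarith
  have h576 : (576 : ℝ) ≤ κ := by
    have h7 : 576 ≤ (36 * n + 16) / lam := by
      rw [le_div_iff₀ hlam0]
      linarith
    linarith
  have hlamκ : 16 * lam ≤ κ := by
    have h7 : 0 ≤ (36 * n + 16) / lam := by positivity
    linarith
  -- the number `M`
  set x := n ^ 2 - n * lam with hx
  have hx0 : 0 < x := lt_of_le_of_lt (Nat.cast_nonneg _) hcon
  have hc1 : x ≤ ⌈x⌉₊ := Nat.le_ceil x
  have hc2 : (⌈x⌉₊ : ℝ) < x + 1 := Nat.ceil_lt_add_one hx0.le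
  have hc3 : 1 ≤ ⌈x⌉₊ := Nat.one_le_ceil_iff.2 hx0
  obtain ⟨M, hM⟩ := Nat.exists_eq_add_of_le hc3
  have hMr : (⌈x⌉₊ : ℝ) = 1 + M := by rw [hM]; push_cast; ring
  have hM1 : x - 1 ≤ M := by linarith
  have hM2 : (M : ℝ) < x := by linarith
  have hwM : tot S w ≤ M := by
    have h7 : (tot S w : ℝ) < ⌈x⌉₊ := lt_of_lt_of_le hcon hc1
    have h8 : tot S w < ⌈x⌉₊ := by exact_mod_cast h7
    omega
  set lam0 := (n ^ 2 - M) / n with hlam0def
  have hl1 : lam ≤ lam0 := by
    rw [hlam0def, le_div_iff₀ hn0]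
    linarith
  have hl2 : lam0 ≤ lam + 1 / n := by
    rw [hlam0def, div_le_iff₀ hn0]
    have h7 : (lam + 1 / n) * n = lam * n + 1 := by field_simp
    rw [h7]
    linarith
  have hnl0 : n * lam0 = n ^ 2 - M := by rw [hlam0def]; field_simp
  have hSne : S.Nonempty := by
    rw [← Finset.card_pos]
    have : (0 : ℝ) < S.card := by rw [← hn]; exact hn0
    exact_mod_cast this
  have hκM : κ * S.card ≤ M := by
    have h7 : (κ : ℝ) * S.card ≤ M := by
      rw [← hn]
      have h8 : (κ : ℝ) * n ≤ n / 2000 * n := mul_le_mul_of_nonneg_right (by linarith) hn0.le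
      have h9 : n * lam ≤ n * (n / 16) := mul_le_mul_of_nonneg_left (by linarith) hn0.le
      nlinarith
    exact_mod_cast h7
  obtain ⟨u, b, hub, htot, htu⟩ := h3 α S w M (κ * S.card) hSne hw hwM hκM
  have htotr : (tot S (u ++ b) : ℝ) ≤ (S.card : ℝ) ^ 2 - C * (S.card : ℝ) ^ ((4 : ℝ) / 3) := by
    rw [← hn, hCn, htot]
    exact hM2.le
  have hcnt := h4 α S (u ++ b) C hC.le hIH hub htotr
  have hcb : ∀ z ∈ S, (b.count z : ℝ) ≤ 2 * n := by
    intro z hz
    have h7 : (b.count z : ℝ) ≤ (u ++ b).count z := by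
      rw [List.count_append]
      push_cast
      have : (0 : ℝ) ≤ u.count z := Nat.cast_nonneg _
      linarith
    have h8 := hcnt z hz
    rw [← hn] at h8
    exact h7.trans h8
  have htb : (tot S b : ℝ) = M - κ * n := by
    have h7 : (tot S (u ++ b) : ℝ) = tot S u + tot S b := by rw [tot_append]; push_cast; ring
    rw [htot, htu] at h7
    push_cast at h7
    rw [hn]
    linarith
  have htur : (tot S u : ℝ) = κ * n := by
    rw [htu, hn]
    push_cast
    ring
  set raw : α → ℝ := fun z => 2 * (S.card : ℝ) - 2 * κ - b.count z with hraw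
  have hrawn : ∀ z, raw z = 2 * n - 2 * κ - b.count z := fun z => by rw [hraw, hn]
  have hsum : ∑ z ∈ S, raw z = S.card * (n - κ + lam0) := by
    have h7 : ∑ z ∈ S, raw z = S.card * (2 * n - 2 * κ) - tot S b := by
      have h8 : ∑ z ∈ S, raw z = ∑ z ∈ S, ((2 * n - 2 * κ) - (b.count z : ℝ)) :=
        Finset.sum_congr rfl fun z _ => hrawn z
      rw [h8, Finset.sum_sub_distrib, Finset.sum_const, nsmul_eq_mul]
      unfold tot
      push_cast
      ring
    rw [h7, htb, ← hn]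
    linear_combination -hnl0
  have hκ16 : 16 * (κ : ℝ) ≤ n := by linarith
  have hinv : 1 / n ≤ n / 16 := by
    rw [div_le_iff₀ hn0]
    nlinarith
  obtain ⟨J', cl, P, hJ', hP, hSg⟩ := h2 α S raw n (lam / 48) (n - κ + lam0) hn0 (by positivity)
    (by linarith) (by linarith) (by linarith) hsum (by
      intro z hz
      rw [hrawn]
      have h7 := hcb z hz
      have h8 : (0 : ℝ) ≤ b.count z := Nat.cast_nonneg _
      constructor <;> linarith)
  have hJJ : (J' : ℝ) ≤ J := by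
    rw [hJ]
    have h7 : 6 * n / (lam / 48) = 288 * n / lam := by field_simp; ring
    rw [h7] at hJ'
    exact hJ'
  set Θ := (κ : ℝ) * n - (κ : ℝ) ^ 2 + 7 / 6 * lam * κ - lam ^ 2 with hΘ
  have hκκ : (κ : ℝ) ^ 2 ≤ κ * n / 16 := by nlinarith
  have hll : lam ^ 2 ≤ κ * n / 256 := by
    have h7 : lam * lam ≤ (κ / 16) * (n / 16) :=
      mul_le_mul (by linarith) (by linarith) hlam0.le (by positivity)
    nlinarith
  have hΘ9 : 9 * (n / 4) ≤ Θ := by
    have h7 : 0 ≤ 7 / 6 * lam * κ := by positivity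
    have h8 : 576 * n ≤ κ * n := mul_le_mul_of_nonneg_right h576 hn0.le
    linarith
  have hΘ44 : Θ / (n / 4) ≤ 44 / 10 * κ := by
    rw [div_le_iff₀ (by positivity)]
    have h7 : lam * κ ≤ n / 16 * κ := mul_le_mul_of_nonneg_right (by linarith) hκ0
    have h8 : 0 ≤ (κ : ℝ) ^ 2 := by positivity
    have h9 : 0 ≤ lam ^ 2 := by positivity
    have h10 : 0 ≤ κ * n := by positivity
    nlinarith
  have hΘpos : 0 ≤ Θ / (n / 4) := div_nonneg (by linarith) (by positivity)
  have hwl := h1 α A e J' S (fun z => max (raw z) (n / 4)) (n / 4) Θ cl P u hFB hA (by positivity)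
    (by
      intro z hz
      have h7 := hP z hz
      refine ⟨le_max_right _ _, h7.2.1, ?_, h7.1⟩
      linarith [h7.2.2])
    (by
      intro L hL hLu
      have h7 := h5 α S u b C lam κ L hC.le hIH hub htu htotr (by rw [← hn]; exact hlam)
        (by
          have : 16 * (κ : ℝ) ≤ S.card := by rw [← hn]; exact hκ16
          exact_mod_cast this)
        (by rw [← hn]; exact h16) hL hLu
      have h8 : cost raw L ≤ cost (fun z => max (raw z) (n / 4)) L :=
        cost_mono (fun z => le_max_left _ _) L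
      rw [← hn] at h7
      rw [← hn] at hraw
      rw [← hraw] at h7
      exact h7.trans h8)
    hΘ9
    (by
      rw [← hn]
      have h7 : (A : ℝ) * J' ≤ A * J := mul_le_mul_of_nonneg_left hJJ (by linarith)
      have h8 : (A : ℝ) * J' * (Θ / (n / 4)) ≤ A * J * (44 / 10 * κ) :=
        mul_le_mul h7 hΘ44 hΘpos (by positivity)
      have h9 : 0 ≤ (A : ℝ) * J * κ := by positivity
      nlinarith)
  rw [← hn, htur] at hwl
  rw [← hn] at hSg
  refine h6 n κ lam lam0 (n - κ + lam0) (lam / 48) (J' * e) Θ (∑ z ∈ S, 1 / P (cl z)) hlam0 h16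
    (by linarith) hκ16 hl1 hl2 rfl rfl hΘ (by positivity) ?_ hSg ?_ hκ
  · have h7 : (J' : ℝ) * e ≤ J * e := mul_le_mul_of_nonneg_right hJJ (Nat.cast_nonneg _)
    linarith
  · have h7 : 4 * ((J' : ℝ) * e) * (Θ / (n / 4)) = 4 * J' * e * (Θ / (n / 4)) := by ring
    rw [h7]
    exact hwl

end Pool.Agent.H46.FT.STEP
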