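import Mathlib
import Pool.Agent.H52.FT.Targets

/-!
# WL: weighted lower bound for the length of a word by the least cost of a non-subword
-/

namespace Pool.Agent.H46.FT.WL

open Pool.Agent.H52.FT

/-- real inequality of the second case -/
lemma real2 {n A J R e Θ q g t1 t2 t3 s1 s2 s3 n1 v y : ℝ} (hA : 1 ≤ A) (hJ : 1 ≤ J)
    (hR : 0 < R) (he : 0 ≤ e) (hq : 0 < q) (hg : 0 ≤ g) (hgR : R + g ≤ 2 * R)
    (h1 : (Θ + g * q) * s1 - J * (e + 9 * A) * (R + g) - (2 * A * J * (R + g) + n1) ≤ t1)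
    (h2 : (Θ + g * q) * s2 - J * (e + 9 * A) * (R + g) - (g + 1) * (2 * A * J * (R + g) + y) ≤ t2)
    (h3 : Θ * s3 - v ≤ t3) (hs1 : n1 / 9 ≤ q * s1) (hs2 : 0 ≤ s2) (hn : n1 + v + y = n)
    (hy : y ≤ J * R) (hv : v ≤ R + g) (h56 : 56 * A * J * R ≤ n) :
    Θ * (s1 + s2 + s3) - 2 * n - 4 * J * e * R ≤ t1 + t2 + t3 := by
  have hJR : 0 < J * R := by positivity
  have hAJR : J * R ≤ A * J * R := by
    have := mul_le_mul_of_nonneg_right hA hJR.le
    linarith
  have hRJ : R ≤ J * R := by
    have := mul_le_mul_of_nonneg_right hJ hR.le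
    linarith
  have hAJg : A * J * (R + g) ≤ A * J * (2 * R) :=
    mul_le_mul_of_nonneg_left hgR (by positivity)
  have hJe : J * (e + 9 * A) * (R + g) ≤ J * (e + 9 * A) * (2 * R) :=
    mul_le_mul_of_nonneg_left hgR (by positivity)
  have hn1 : 36 * (A * J * R) + 9 * (J * R) ≤ n1 := by linarith
  have h4 : 0 ≤ g * (q * s1 - 2 * A * J * (R + g) - y) := by
    apply mul_nonneg hg
    linarith
  have h5 : 0 ≤ g * q * s2 := by positivity
  have h6 : t1 + t2 + t3 ≥ Θ * (s1 + s2 + s3) + g * (q * s1 - 2 * A * J * (R + g) - y)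
      + g * q * s2 - 2 * (J * (e + 9 * A) * (R + g)) - 4 * (A * J * (R + g)) - n := by
    rw [← hn]
    nlinarith [h1, h2, h3]
  have h7 : J * (e + 9 * A) * (2 * R) = 2 * (J * e * R) + 18 * (A * J * R) := by ring
  have h8 : A * J * (2 * R) = 2 * (A * J * R) := by ring
  rw [h7] at hJe
  rw [h8] at hAJg
  nlinarith [h6]

/-- real inequality of the first case -/
lemma real1 {n A J R R' e Θ Θ' t1 t2 t3 s1 s2 s3 n1 v y : ℝ} (hA : 1 ≤ A) (hJ : 1 ≤ J)
    (hR : 0 < R) (he : 0 ≤ e) (hR' : R' ≤ 3 * R)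
    (h1 : Θ' * s1 - J * (e + 9 * A) * R' - (2 * A * J * R' + n1) ≤ t1) (h2 : 0 ≤ t2)
    (h3 : Θ * s3 - v ≤ t3) (hs0 : 0 ≤ s1) (hs1 : R * (n1 / 9) ≤ Θ * s1)
    (hs2 : Θ * s2 ≤ R * y) (hΘ : 2 * Θ ≤ Θ') (hn : n1 + v + y = n) (hy0 : 0 ≤ y)
    (hy : y ≤ J * R) (hv : v ≤ R') (h56 : 56 * A * J * R ≤ n) :
    Θ * (s1 + s2 + s3) - 2 * n - 4 * J * e * R ≤ t1 + t2 + t3 := by
  have hJR : 0 < J * R := by positivity
  have hAJR : J * R ≤ A * J * R := by
    have := mul_le_mul_of_nonneg_right hA hJR.le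
    linarith
  have hRJ : R ≤ J * R := by
    have := mul_le_mul_of_nonneg_right hJ hR.le
    linarith
  have hAJg : A * J * R' ≤ A * J * (3 * R) :=
    mul_le_mul_of_nonneg_left hR' (by positivity)
  have hJe : J * (e + 9 * A) * R' ≤ J * (e + 9 * A) * (3 * R) :=
    mul_le_mul_of_nonneg_left hR' (by positivity)
  have hn1 : 9 * (J * R) ≤ n1 := by linarith
  have h4 : R * y ≤ R * (n1 / 9) := mul_le_mul_of_nonneg_left (by linarith) hR.le
  have h5 : 2 * Θ * s1 ≤ Θ' * s1 := mul_le_mul_of_nonneg_right hΘ hs0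
  have h7 : J * (e + 9 * A) * (3 * R) = 3 * (J * e * R) + 27 * (A * J * R) := by ring
  have h8 : A * J * (3 * R) = 3 * (A * J * R) := by ring
  rw [h7] at hJe
  rw [h8] at hAJg
  have h9 : 0 ≤ J * e * R := by positivity
  have h10 : 2 * A * J * R' = 2 * (A * J * R') := by ring
  rw [h10] at h1
  have h11 : Θ * (s1 + s2 + s3) = Θ * s1 + Θ * s2 + Θ * s3 := by ring
  have h12 : 4 * J * e * R = 4 * (J * e * R) := by ring
  rw [h11, h12]
  linarith

variable {α : Type}

lemma cost_three (p : α → ℝ) (L M N : List α) :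
    cost p (L ++ M ++ N) = cost p L + cost p M + cost p N := by
  rw [cost_append, cost_append]

lemma wd_replace {S E : Finset α} {L L₁ M L₂ N : List α} (hL : Wd S L) (h : L = L₁ ++ M ++ L₂)
    (hN : Wd E N) (hE : ∀ z ∈ E, z ∈ S) (hd : ∀ z ∈ E, z ∉ L) : Wd S (L₁ ++ N ++ L₂) := by
  have hsub : (L₁ ++ L₂).Sublist L := by
    rw [h]
    exact (List.sublist_append_left L₁ M).append_right L₂
  have h1 : (L₁ ++ L₂).Nodup := hL.1.sublist hsub
  constructor
  · have hp : (L₁ ++ N ++ L₂).Perm (N ++ (L₁ ++ L₂)) := by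
      rw [← List.append_assoc]
      exact List.perm_append_comm.append_right L₂
    rw [hp.nodup_iff, List.nodup_append]
    refine ⟨hN.1, h1, ?_⟩
    intro a ha b hb hab
    subst hab
    exact hd a (hN.2 a ha) (hsub.subset hb)
  · intro z hz
    rw [List.append_assoc, List.mem_append, List.mem_append] at hz
    rcases hz with hz | hz | hz
    · exact hL.2 z (hsub.subset (List.mem_append_left _ hz))
    · exact hE z (hN.2 z hz)
    · exact hL.2 z (hsub.subset (List.mem_append_right _ hz))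

lemma len_cost {p : α → ℝ} {q : ℝ} : ∀ L : List α, (∀ z ∈ L, q ≤ p z) →
    (L.length : ℝ) * q ≤ cost p L := by
  intro L
  induction L with
  | nil => intro _; simp
  | cons a L ih =>
    intro h
    rw [cost_cons, List.length_cons]
    have h1 := h a List.mem_cons_self
    have h2 := ih fun z hz => h z (List.mem_cons_of_mem _ hz)
    push_cast
    linarith

theorem wl (h1 : T_MIN) (h2 : T_WS) (h3 : T_WY) : T_WL := by
  intro α _ A e J S p q Θ cl P u hFB hA hq hS hΘ h9 h56
  rcases S.eq_empty_or_nonempty with hE | ⟨z0, hz0⟩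
  · subst hE
    have hΘ0 : 0 ≤ Θ / q := div_nonneg (by linarith) hq.le
    have : (0 : ℝ) ≤ 4 * J * e * (Θ / q) := by positivity
    simp only [tot, Finset.sum_empty, Finset.card_empty, Nat.cast_zero, mul_zero]
    linarith
  have hΘ0 : 0 < Θ := by linarith
  have hJ : 1 ≤ J := by
    have := (hS z0 hz0).2.2.2
    omega
  have hA' : (1 : ℝ) ≤ A := by exact_mod_cast hA
  have hJ' : (1 : ℝ) ≤ J := by exact_mod_cast hJ
  have he' : (0 : ℝ) ≤ e := Nat.cast_nonneg _
  set R := Θ / q with hR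
  have hR9 : 9 ≤ R := by
    rw [hR, le_div_iff₀ hq]
    exact h9
  have hRq : R * q = Θ := by rw [hR]; field_simp
  obtain ⟨Y, hYS, hYc, hYu⟩ := h3 α J S p q Θ cl P u hq hΘ0
    (fun z hz => ⟨(hS z hz).1, (hS z hz).2.1, (hS z hz).2.2.2⟩) hΘ
  rw [← hR] at hYc
  -- basic facts on the weights
  have hPpos : ∀ z ∈ S, 0 < P (cl z) := fun z hz => by
    have := hS z hz
    linarith [this.1, this.2.1]
  have hw1 : ∀ z ∈ S, 1 / (9 * q) ≤ 1 / P (cl z) := fun z hz =>
    one_div_le_one_div_of_le (hPpos z hz) (hS z hz).2.2.1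
  have hw2 : ∀ z ∈ S, 1 / P (cl z) ≤ 1 / q := fun z hz =>
    one_div_le_one_div_of_le hq (by linarith [(hS z hz).1, (hS z hz).2.1])
  have hsum1 : ∀ E : Finset α, E ⊆ S → (E.card : ℝ) / 9 ≤ q * ∑ z ∈ E, 1 / P (cl z) := by
    intro E hE
    have h4 : ∑ z ∈ E, 1 / (9 * q) ≤ ∑ z ∈ E, 1 / P (cl z) :=
      Finset.sum_le_sum fun z hz => hw1 z (hE hz)
    rw [Finset.sum_const, nsmul_eq_mul] at h4
    have h5 := mul_le_mul_of_nonneg_left h4 hq.le
    refine le_trans (le_of_eq ?_) h5
    field_simp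
  have hsum0 : ∀ E : Finset α, E ⊆ S → 0 ≤ ∑ z ∈ E, 1 / P (cl z) := fun E hE =>
    Finset.sum_nonneg fun z hz => (one_div_pos.2 (hPpos z (hE hz))).le
  have hsum2 : ∀ E : Finset α, E ⊆ S → q * ∑ z ∈ E, 1 / P (cl z) ≤ E.card := by
    intro E hE
    have h4 : ∑ z ∈ E, 1 / P (cl z) ≤ ∑ z ∈ E, 1 / q :=
      Finset.sum_le_sum fun z hz => hw2 z (hE hz)
    rw [Finset.sum_const, nsmul_eq_mul] at h4
    have h5 := mul_le_mul_of_nonneg_left h4 hq.le
    refine le_trans h5 (le_of_eq ?_)
    field_simp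
  have hSY : S \ Y ⊆ S := Finset.sdiff_subset
  have hYn : (Y.card : ℝ) + (S \ Y).card = S.card := by
    have := Finset.card_sdiff_add_card_eq_card hYS
    exact_mod_cast (by omega : Y.card + (S \ Y).card = S.card)
  have hY0 : (0 : ℝ) ≤ Y.card := Nat.cast_nonneg _
  have hJR : (0 : ℝ) < J * R := by positivity
  have hAJR : (J : ℝ) * R ≤ A * J * R := by
    have := mul_le_mul_of_nonneg_right hA' hJR.le
    linarith
  have hRJ : R ≤ J * R := by
    have := mul_le_mul_of_nonneg_right hJ' (by linarith : (0 : ℝ) ≤ R)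
    linarith
  have h56' : 56 * ((A : ℝ) * J * R) ≤ S.card := by linarith
  -- for a set `U` of letters outside `Y`
  have hUu : ∀ U : Finset α, U ⊆ S \ Y →
      Θ * ∑ z ∈ U, 1 / P (cl z) - U.card ≤ tot U u := by
    intro U hU
    have h4 : ∑ z ∈ U, (Θ / P (cl z) - 1) ≤ ∑ z ∈ U, (u.count z : ℝ) :=
      Finset.sum_le_sum fun z hz => hYu z (hU hz)
    rw [Finset.sum_sub_distrib, Finset.sum_const, nsmul_eq_mul, mul_one] at h4
    have h5 : Θ * ∑ z ∈ U, 1 / P (cl z) = ∑ z ∈ U, Θ / P (cl z) := by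
      rw [Finset.mul_sum]
      exact Finset.sum_congr rfl fun z _ => by ring
    rw [h5]
    unfold tot
    push_cast
    exact h4
  -- decomposition
  have hdec : ∀ U : Finset α, U ⊆ S \ Y →
      (∑ z ∈ S, 1 / P (cl z) = ∑ z ∈ (S \ Y) \ U, 1 / P (cl z) + ∑ z ∈ Y, 1 / P (cl z)
        + ∑ z ∈ U, 1 / P (cl z)) ∧
      (tot S u : ℝ) = tot ((S \ Y) \ U) u + tot Y u + tot U u ∧
      (((S \ Y) \ U).card : ℝ) + U.card + Y.card = S.card := by
    intro U hU
    refine ⟨?_, ?_, ?_⟩
    · rw [← Finset.sum_sdiff hYS, ← Finset.sum_sdiff hU]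
      ring
    · rw [tot_sdiff hYS, tot_sdiff hU]
      push_cast
      ring
    · have := Finset.card_sdiff_add_card_eq_card hU
      have h5 : (((S \ Y) \ U).card : ℝ) + U.card = (S \ Y).card := by exact_mod_cast this
      linarith
  have hWdS : ∀ L : List α, Wd (S \ Y) L → Wd S L := fun L hL =>
    ⟨hL.1, fun z hz => hSY (hL.2 z hz)⟩
  -- length of a word of given cost
  have hlen : ∀ L : List α, Wd (S \ Y) L → (L.toFinset.card : ℝ) ≤ cost p L / q := by
    intro L hL
    rw [List.toFinset_card_of_nodup hL.1, le_div_iff₀ hq]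
    exact len_cost L fun z hz => (hS z (hSY (hL.2 z hz))).1
  have hLp : ∀ L : List α, Wd (S \ Y) L → ∀ z ∈ L, q ≤ p z ∧ p z ≤ 9 * q := by
    intro L hL z hz
    have := hS z (hSY (hL.2 z hz))
    exact ⟨this.1, by linarith [this.2.1, this.2.2.1]⟩
  have hUsub : ∀ L : List α, Wd (S \ Y) L → L.toFinset ⊆ S \ Y := by
    intro L hL z hz
    exact hL.2 z (List.mem_toFinset.1 hz)
  -- the block lemma for the letters outside `Y` and `L`
  have hE1 : ∀ (L u' : List α), Wd (S \ Y) L → ¬ L.Sublist u' →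
      (∀ L' : List α, Wd (S \ Y) L' → ¬ L'.Sublist u' → cost p L ≤ cost p L') →
      cost p L * ∑ z ∈ (S \ Y) \ L.toFinset, 1 / P (cl z)
        - J * (e + 9 * A) * (cost p L / q)
        - (2 * A * J * (cost p L / q) + ((S \ Y) \ L.toFinset).card)
        ≤ tot ((S \ Y) \ L.toFinset) u' := by
    intro L u' hL hLu hmin
    have h4 := h2 α A e S.card J p q 0 cl P L u' ((S \ Y) \ L.toFinset) hFB hA hq le_rfl hL.1 hLu
      (hLp L hL) (Finset.card_le_card (Finset.sdiff_subset.trans hSY))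
      (fun z hz => by
        have := hS z (hSY (Finset.mem_sdiff.1 hz).1)
        exact ⟨this.1, this.2.1, this.2.2.2⟩)
      (by
        intro L₁ M L₂ N h5 hN hNu
        have h6 : Wd (S \ Y) (L₁ ++ N ++ L₂) := wd_replace hL h5 hN
          (fun z hz => (Finset.mem_sdiff.1 hz).1)
          (fun z hz hzL => (Finset.mem_sdiff.1 hz).2 (List.mem_toFinset.2 hzL))
        have h7 := hmin _ h6 hNu
        rw [cost_three] at h7
        have h8 : cost p L = cost p L₁ + cost p M + cost p L₂ := by rw [h5, cost_three]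
        linarith)
    rw [zero_div, zero_add, one_mul] at h4
    exact h4
  by_cases hcase : ∃ L : List α, Wd (S \ Y) L ∧ ¬ L.Sublist u ∧ cost p L ≤ 2 * Θ
  · obtain ⟨L0, hL0, hL0u, hL0c⟩ := hcase
    obtain ⟨L, hL, hLu, hmin⟩ := h1 α (S \ Y) p u ⟨L0, hL0, hL0u⟩
    have hc2 : cost p L ≤ 2 * Θ := (hmin L0 hL0 hL0u).trans hL0c
    have hc1 : Θ ≤ cost p L := hΘ L (hWdS L hL) hLu
    have hA1 := hE1 L u hL hLu hmin
    have hA2 := h2 α A e S.card J p q (cost p L - Θ) cl P L u Y hFB hA hq (by linarith) hL.1 hLu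
      (hLp L hL) (Finset.card_le_card hYS)
      (fun z hz => by
        have := hS z (hYS hz)
        exact ⟨this.1, this.2.1, this.2.2.2⟩)
      (by
        intro L₁ M L₂ N h5 hN hNu
        have h6 : Wd S (L₁ ++ N ++ L₂) := wd_replace (hWdS L hL) h5 hN
          (fun z hz => hYS hz)
          (fun z hz hzL => (Finset.mem_sdiff.1 (hL.2 z hzL)).2 hz)
        have h7 := hΘ _ h6 hNu
        rw [cost_three] at h7
        have h8 : cost p L = cost p L₁ + cost p M + cost p L₂ := by rw [h5, cost_three]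
        linarith)
    have hA3 := hUu L.toFinset (hUsub L hL)
    obtain ⟨hd1, hd2, hd3⟩ := hdec L.toFinset (hUsub L hL)
    have hv := hlen L hL
    rw [hd1, hd2]
    have hcg : cost p L / q = R + (cost p L - Θ) / q := by
      rw [hR]; field_simp; ring
    have hcq : cost p L = Θ + (cost p L - Θ) / q * q := by
      field_simp; ring
    have hg0 : 0 ≤ (cost p L - Θ) / q := div_nonneg (by linarith) hq.le
    have hg2 : R + (cost p L - Θ) / q ≤ 2 * R := by
      have : (cost p L - Θ) / q ≤ R := by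
        rw [hR]
        exact div_le_div_of_nonneg_right (by linarith) hq.le
      linarith
    set g := (cost p L - Θ) / q with hgdef
    rw [hcg] at hA1 hA2 hv
    rw [hcq] at hA1 hA2
    exact real2 hA' hJ' (by linarith) he' hq hg0 hg2 hA1 hA2 hA3
      (hsum1 _ (Finset.sdiff_subset.trans hSY)) (hsum0 Y hYS) hd3 hYc hv h56
  · push Not at hcase
    -- a prefix with a non-subword of cost in `[2 Θ, 3 Θ]`
    have hpre : ∃ (m : ℕ) (L : List α), Wd (S \ Y) L ∧ ¬ L.Sublist (u.take m) ∧
        (∀ L' : List α, Wd (S \ Y) L' → ¬ L'.Sublist (u.take m) → cost p L ≤ cost p L') ∧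
        2 * Θ ≤ cost p L ∧ cost p L ≤ 3 * Θ := by
      classical
      let Q : ℕ → Prop := fun m => ∃ L : List α, Wd (S \ Y) L ∧ ¬ L.Sublist (u.take m) ∧
        cost p L ≤ 3 * Θ
      have hmin : ∀ m, Q m → ∃ L : List α, Wd (S \ Y) L ∧ ¬ L.Sublist (u.take m) ∧
          (∀ L' : List α, Wd (S \ Y) L' → ¬ L'.Sublist (u.take m) → cost p L ≤ cost p L') ∧
          cost p L ≤ 3 * Θ := by
        rintro m ⟨L0, hL0, hL0u, hL0c⟩
        obtain ⟨L, hL, hLu, hm⟩ := h1 α (S \ Y) p (u.take m) ⟨L0, hL0, hL0u⟩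
        exact ⟨L, hL, hLu, hm, (hm L0 hL0 hL0u).trans hL0c⟩
      have hSYc : 3 * R + 1 < ((S \ Y).card : ℝ) := by linarith
      have hQ0 : Q 0 := by
        have hne : (S \ Y).Nonempty := by
          rw [← Finset.card_pos]
          have : (0 : ℝ) < (S \ Y).card := by linarith
          exact_mod_cast this
        obtain ⟨z, hz⟩ := hne
        refine ⟨[z], ⟨List.nodup_singleton z, ?_⟩, ?_, ?_⟩
        · intro y hy
          rw [List.mem_singleton] at hy
          rw [hy]
          exact hz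
        · simp
        · have := hS z (hSY hz)
          rw [cost_cons, cost_nil]
          linarith [this.2.1, this.2.2.1]
      by_cases hQu : Q u.length
      · obtain ⟨L, hL, hLu, hm, hc⟩ := hmin _ hQu
        refine ⟨u.length, L, hL, hLu, hm, ?_, hc⟩
        rw [List.take_length] at hLu
        exact (hcase L hL hLu).le
      · have hex : ∃ m, ¬ Q m := ⟨_, hQu⟩
        have hf := Nat.find_spec hex
        set m0 := Nat.find hex with hm0
        have hm0pos : m0 ≠ 0 := by
          intro h0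
          rw [h0] at hf
          exact hf hQ0
        obtain ⟨m, hm⟩ := Nat.exists_eq_succ_of_ne_zero hm0pos
        have hQm : Q m := by
          by_contra hcon
          have := Nat.find_min' hex hcon
          omega
        have hle : m0 ≤ u.length := Nat.find_min' hex hQu
        obtain ⟨L, hL, hLu, hmn, hc⟩ := hmin _ hQm
        refine ⟨m, L, hL, hLu, hmn, ?_, hc⟩
        by_contra hcon
        push Not at hcon
        have hmlt : m < u.length := by omega
        -- choose `z`
        have hex2 : ∃ z ∈ S \ Y, z ∉ insert u[m] L.toFinset := by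
          by_contra hcon2
          push Not at hcon2
          have h5 : S \ Y ⊆ insert u[m] L.toFinset := fun z hz => hcon2 z hz
          have h6 := (Finset.card_le_card h5).trans (Finset.card_insert_le _ _)
          have h7 : ((S \ Y).card : ℝ) ≤ L.toFinset.card + 1 := by exact_mod_cast h6
          have h8 := hlen L hL
          have h9 : cost p L / q ≤ 3 * R := by
            rw [div_le_iff₀ hq]
            nlinarith
          linarith
        obtain ⟨z, hz, hzn⟩ := hex2
        rw [Finset.mem_insert, not_or, List.mem_toFinset] at hzn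
        apply hf
        refine ⟨L ++ [z], ⟨?_, ?_⟩, ?_, ?_⟩
        · rw [List.nodup_append]
          refine ⟨hL.1, List.nodup_singleton z, ?_⟩
          intro a ha b hb hab
          rw [List.mem_singleton] at hb
          rw [hab, hb] at ha
          exact hzn.2 ha
        · intro y hy
          rw [List.mem_append, List.mem_singleton] at hy
          rcases hy with hy | hy
          · exact hL.2 y hy
          · rw [hy]; exact hz
        · rw [hm, Nat.succ_eq_add_one, List.take_add_one, List.getElem?_eq_getElem hmlt]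
          apply not_sublist_append hLu
          intro h5
          have h6 := h5.subset (List.mem_singleton.2 rfl : z ∈ [z])
          simp only [Option.toList_some, List.mem_singleton] at h6
          exact hzn.1 h6
        · have := hS z (hSY hz)
          rw [cost_append, cost_cons, cost_nil]
          linarith [this.2.1, this.2.2.1]
    obtain ⟨m, L, hL, hLu, hmin, hc2, hc3⟩ := hpre
    have hA1 := hE1 L (u.take m) hL hLu hmin
    have hA3 := hUu L.toFinset (hUsub L hL)
    obtain ⟨hd1, hd2, hd3⟩ := hdec L.toFinset (hUsub L hL)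
    have hv := hlen L hL
    have htot : (tot ((S \ Y) \ L.toFinset) (u.take m) : ℝ) ≤ tot ((S \ Y) \ L.toFinset) u := by
      have : tot ((S \ Y) \ L.toFinset) (u.take m) ≤ tot ((S \ Y) \ L.toFinset) u :=
        Finset.sum_le_sum fun z _ => (List.take_sublist m u).count_le z
      exact_mod_cast this
    have hR3 : cost p L / q ≤ 3 * R := by
      rw [div_le_iff₀ hq]
      nlinarith
    rw [hd1, hd2]
    refine real1 hA' hJ' (by linarith) he' hR3 (hA1.trans htot) (Nat.cast_nonneg _) hA3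
      (hsum0 _ (Finset.sdiff_subset.trans hSY)) ?_ ?_ hc2 hd3 hY0 hYc hv h56
    · rw [← hRq]
      have := hsum1 ((S \ Y) \ L.toFinset) (Finset.sdiff_subset.trans hSY)
      rw [mul_assoc]
      exact mul_le_mul_of_nonneg_left this (by linarith)
    · rw [← hRq]
      have := hsum2 Y hYS
      rw [mul_assoc]
      exact mul_le_mul_of_nonneg_left this (by linarith)

end Pool.Agent.H46.FT.WL
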